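import Pool.Agent.Q268.TM.Abs

/-!
# Toric ideals of matching polytopes: the degree bound 4 fails

Let `G` be the Petersen graph together with one extra edge (here the edge `67`).  `G` has exactly
eight perfect matchings `P 0, …, P 7`, and the only relation among them is
`2 P 0 + P 4 + P 5 + P 6 = P 1 + P 2 + 2 P 3 + P 7`.
The fibre of this vector (with `s ^ 5`) consists of two monomials with disjoint supports, so every
generating set of the toric ideal of the matching polytope of `G` has an element of degree `≥ 5`.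
-/

set_option autoImplicit false

universe u

namespace Pool.Agent.Results.MP_2a9801_co.DegreeFive

open MvPolynomial

/-- `M` is a matching of `G`: a set of pairwise non-adjacent edges. -/
def IsMatching {V : Type*} (G : SimpleGraph V) (M : Set G.edgeSet) : Prop :=
  ∀ e ∈ M, ∀ f ∈ M, e ≠ f → ∀ v : V, v ∈ (e : Sym2 V) → v ∉ (f : Sym2 V)

/-- The incidence vector `ρ(M) ∈ ℝ ^ E(G)` of a set of edges. -/
noncomputable def rho {V : Type*} (G : SimpleGraph V) (M : Set G.edgeSet) : G.edgeSet → ℝ :=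
  M.indicator (fun _ => 1)

/-- The matching polytope of `G`: the convex hull of the vectors `ρ(M)`, `M` a matching. -/
def matchingPolytope {V : Type*} (G : SimpleGraph V) : Set (G.edgeSet → ℝ) :=
  convexHull ℝ {x | ∃ M : Set G.edgeSet, IsMatching G M ∧ rho G M = x}

/-- The lattice points of a polytope in the nonnegative orthant of `ℝ ^ E`. -/
def latticePoints {E : Type*} (P : Set (E → ℝ)) : Set (E → ℕ) :=
  {a | (fun e => (a e : ℝ)) ∈ P}

/-- The map `K[x_a : a a lattice point of P] → K[t_e (e ∈ E), s]`, `x_a ↦ t ^ a * s`; the variable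
`t_e` is `X (some e)` and `s` is `X none`. -/
noncomputable def toricMap (K : Type*) [Field K] {E : Type*} [Fintype E] (P : Set (E → ℝ)) :
    MvPolynomial (latticePoints P) K →ₐ[K] MvPolynomial (Option E) K :=
  aeval (fun a => (∏ e, X (some e) ^ (a.1 e)) * X none)

/-- The toric ideal of the polytope `P`. -/
noncomputable def toricIdeal (K : Type*) [Field K] {E : Type*} [Fintype E] (P : Set (E → ℝ)) :
    Ideal (MvPolynomial (latticePoints P) K) :=
  RingHom.ker (toricMap K P)

/-! ### The graph -/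

/-- the sixteen edges: the Petersen graph and the edge `67` -/
def ed : Fin 16 → Sym2 (Fin 10) :=
  ![s(0, 1), s(0, 4), s(0, 6), s(1, 3), s(1, 7), s(2, 3), s(2, 5), s(2, 6), s(3, 8), s(4, 5),
    s(4, 8), s(5, 7), s(6, 7), s(6, 9), s(7, 9), s(8, 9)]

/-- the Petersen graph with one extra edge -/
def G : SimpleGraph (Fin 10) where
  Adj a b := ∃ i, ed i = s(a, b)
  symm := ⟨by
    rintro a b ⟨i, hi⟩
    exact ⟨i, by rw [hi, Sym2.eq_swap]⟩⟩
  loopless := ⟨by decide +kernel⟩

instance : DecidableRel G.Adj := fun a b => inferInstanceAs (Decidable (∃ i, ed i = s(a, b)))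

theorem mem_edgeSet (i : Fin 16) : ed i ∈ G.edgeSet := by
  revert i
  decide +kernel

/-- the edges as elements of the edge set -/
def ev (i : Fin 16) : G.edgeSet := ⟨ed i, mem_edgeSet i⟩

theorem ev_inj : Function.Injective ev := by
  intro i j h
  have h1 : ed i = ed j := congrArg Subtype.val h
  revert i j
  decide +kernel

theorem ev_surj : Function.Surjective ev := by
  rintro ⟨e, he⟩
  induction e using Sym2.ind with
  | _ a b =>
    obtain ⟨i, hi⟩ := (SimpleGraph.mem_edgeSet G).1 he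
    exact ⟨i, Subtype.ext hi⟩

/-- the eight perfect matchings -/
def P : Fin 8 → Fin 16 → ℕ :=
  ![![1, 0, 0, 0, 0, 1, 0, 0, 0, 1, 0, 0, 1, 0, 0, 1],
    ![1, 0, 0, 0, 0, 1, 0, 0, 0, 0, 1, 1, 0, 1, 0, 0],
    ![1, 0, 0, 0, 0, 0, 0, 1, 1, 1, 0, 0, 0, 0, 1, 0],
    ![0, 1, 0, 1, 0, 0, 1, 0, 0, 0, 0, 0, 1, 0, 0, 1],
    ![0, 1, 0, 1, 0, 0, 0, 1, 0, 0, 0, 1, 0, 0, 0, 1],
    ![0, 1, 0, 0, 1, 0, 1, 0, 1, 0, 0, 0, 0, 1, 0, 0],
    ![0, 0, 1, 1, 0, 0, 1, 0, 0, 0, 1, 0, 0, 0, 1, 0],
    ![0, 0, 1, 0, 1, 1, 0, 0, 0, 1, 0, 0, 0, 0, 0, 1]]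

/-- inequality satisfied by the polytope -/
theorem vertex_le (x : G.edgeSet → ℝ) (hx : x ∈ matchingPolytope G) (v : Fin 10) :
    ∑ i with v ∈ ed i, x (ev i) ≤ 1 := by
  have hsub : matchingPolytope G ⊆ {x | ∑ i with v ∈ ed i, x (ev i) ≤ 1} := by
    apply convexHull_min
    · rintro y ⟨M, hM, rfl⟩
      simp only [Set.mem_ofPred_eq]
      classical
      by_cases h : ∃ i, v ∈ ed i ∧ ev i ∈ M
      · obtain ⟨i, hi, hiM⟩ := h
        rw [Finset.sum_eq_single i]
        · unfold rho
          rw [Set.indicator_of_mem hiM]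
        · intro j hj hji
          unfold rho
          apply Set.indicator_of_notMem
          intro hjM
          exact hM (ev i) hiM (ev j) hjM (fun h => hji (ev_inj h).symm) v hi
            (Finset.mem_filter.1 hj).2
        · intro h
          exact absurd (by simp [hi]) h
      · push Not at h
        rw [Finset.sum_eq_zero]
        · norm_num
        · intro i hi
          unfold rho
          exact Set.indicator_of_notMem (h i (Finset.mem_filter.1 hi).2) _
    · intro y hy z hz a b ha hb hab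
      simp only [Set.mem_ofPred_eq] at hy hz ⊢
      have : ∑ i with v ∈ ed i, (a • y + b • z) (ev i) =
          a * ∑ i with v ∈ ed i, y (ev i) + b * ∑ i with v ∈ ed i, z (ev i) := by
        rw [Finset.mul_sum, Finset.mul_sum, ← Finset.sum_add_distrib]
        rfl
      rw [this]
      calc _ ≤ a * 1 + b * 1 := by gcongr
        _ = 1 := by rw [mul_one, mul_one, hab]
  exact hsub hx

theorem vertex_le_nat (a : latticePoints (matchingPolytope G)) (v : Fin 10) :
    ∑ i with v ∈ ed i, a.1 (ev i) ≤ 1 := by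
  have h := vertex_le _ a.2 v
  exact_mod_cast h

theorem filt (b : Fin 16 → ℕ) (v : Fin 10) (l : Finset (Fin 16))
    (hl : Finset.univ.filter (fun i => v ∈ ed i) = l) :
    ∑ i with v ∈ ed i, b i = ∑ i ∈ l, b i := by rw [hl]

/-- the explicit inequalities -/
theorem ineqs (b : Fin 16 → ℕ) (h : ∀ v : Fin 10, ∑ i with v ∈ ed i, b i ≤ 1) :
    b 0 + b 1 + b 2 ≤ 1 ∧ b 0 + b 3 + b 4 ≤ 1 ∧ b 5 + b 6 + b 7 ≤ 1 ∧ b 3 + b 5 + b 8 ≤ 1 ∧
    b 1 + b 9 + b 10 ≤ 1 ∧ b 6 + b 9 + b 11 ≤ 1 ∧ b 2 + b 7 + b 12 + b 13 ≤ 1 ∧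
    b 4 + b 11 + b 12 + b 14 ≤ 1 ∧ b 8 + b 10 + b 15 ≤ 1 ∧ b 13 + b 14 + b 15 ≤ 1 := by
  have h0 := h 0
  have h1 := h 1
  have h2 := h 2
  have h3 := h 3
  have h4 := h 4
  have h5 := h 5
  have h6 := h 6
  have h7 := h 7
  have h8 := h 8
  have h9 := h 9
  rw [filt b 0 {0, 1, 2} (by decide +kernel)] at h0
  rw [filt b 1 {0, 3, 4} (by decide +kernel)] at h1
  rw [filt b 2 {5, 6, 7} (by decide +kernel)] at h2
  rw [filt b 3 {3, 5, 8} (by decide +kernel)] at h3
  rw [filt b 4 {1, 9, 10} (by decide +kernel)] at h4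
  rw [filt b 5 {6, 9, 11} (by decide +kernel)] at h5
  rw [filt b 6 {2, 7, 12, 13} (by decide +kernel)] at h6
  rw [filt b 7 {4, 11, 12, 14} (by decide +kernel)] at h7
  rw [filt b 8 {8, 10, 15} (by decide +kernel)] at h8
  rw [filt b 9 {13, 14, 15} (by decide +kernel)] at h9
  simp [Finset.sum_insert] at h0 h1 h2 h3 h4 h5 h6 h7 h8 h9
  omega

theorem sum16 (b : Fin 16 → ℕ) : ∑ i, b i = b 0 + b 1 + b 2 + b 3 + b 4 + b 5 + b 6 + b 7 + b 8 +
    b 9 + b 10 + b 11 + b 12 + b 13 + b 14 + b 15 := by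
  simp [Fin.sum_univ_succ]
  ring

/-- a tuple of 16 numbers is determined by its entries -/
theorem eq_of_entries (b c : Fin 16 → ℕ) (h : b 0 = c 0 ∧ b 1 = c 1 ∧ b 2 = c 2 ∧ b 3 = c 3 ∧
    b 4 = c 4 ∧ b 5 = c 5 ∧ b 6 = c 6 ∧ b 7 = c 7 ∧ b 8 = c 8 ∧ b 9 = c 9 ∧ b 10 = c 10 ∧
    b 11 = c 11 ∧ b 12 = c 12 ∧ b 13 = c 13 ∧ b 14 = c 14 ∧ b 15 = c 15) : b = c := by
  obtain ⟨h0, h1, h2, h3, h4, h5, h6, h7, h8, h9, h10, h11, h12, h13, h14, h15⟩ := h
  funext i
  fin_cases i <;> assumption

theorem classify (b : Fin 16 → ℕ)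
    (h : b 0 + b 1 + b 2 = 1 ∧ b 0 + b 3 + b 4 = 1 ∧ b 5 + b 6 + b 7 = 1 ∧ b 3 + b 5 + b 8 = 1 ∧
    b 1 + b 9 + b 10 = 1 ∧ b 6 + b 9 + b 11 = 1 ∧ b 2 + b 7 + b 12 + b 13 = 1 ∧
    b 4 + b 11 + b 12 + b 14 = 1 ∧ b 8 + b 10 + b 15 = 1 ∧ b 13 + b 14 + b 15 = 1) :
    ∃ j, b = P j := by
  obtain ⟨h0, h1, h2, h3, h4, h5, h6, h7, h8, h9⟩ := h
  have ha : b 0 = 1 ∨ b 1 = 1 ∨ b 2 = 1 := by omega
  rcases ha with ha | ha | ha
  · have a1 : b 1 = 0 := by omega
    have a2 : b 2 = 0 := by omega
    have a3 : b 3 = 0 := by omega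
    have a4 : b 4 = 0 := by omega
    rw [a2] at h6
    rw [a3] at h3
    rw [a1] at h4
    rw [a4] at h7
    clear h0 h1
    have hb : b 5 = 1 ∨ b 5 = 0 := by omega
    rcases hb with hb | hb
    · have hc : b 9 = 1 ∨ b 9 = 0 := by omega
      rcases hc with hc | hc
      · refine ⟨0, eq_of_entries _ _ ?_⟩; simp [P]; omega
      · refine ⟨1, eq_of_entries _ _ ?_⟩; simp [P]; omega
    · refine ⟨2, eq_of_entries _ _ ?_⟩; simp [P]; omega
  · have a0 : b 0 = 0 := by omega
    have a2 : b 2 = 0 := by omega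
    have a9 : b 9 = 0 := by omega
    have a10 : b 10 = 0 := by omega
    rw [a0] at h1
    rw [a2] at h6
    rw [a9] at h5
    rw [a10] at h8
    clear h0 h4
    have hb : b 3 = 1 ∨ b 3 = 0 := by omega
    rcases hb with hb | hb
    · have a4 : b 4 = 0 := by omega
      have a5 : b 5 = 0 := by omega
      have a8 : b 8 = 0 := by omega
      rw [a4] at h7
      rw [a5] at h2
      rw [a8] at h8
      clear h1 h3
      have hc : b 6 = 1 ∨ b 6 = 0 := by omega
      rcases hc with hc | hc
      · refine ⟨3, eq_of_entries _ _ ?_⟩; simp [P]; omega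
      · refine ⟨4, eq_of_entries _ _ ?_⟩; simp [P]; omega
    · have a4 : b 4 = 1 := by omega
      have a11 : b 11 = 0 := by omega
      have a12 : b 12 = 0 := by omega
      have a14 : b 14 = 0 := by omega
      rw [a11] at h5
      rw [a12] at h6
      rw [a14] at h9
      clear h1 h7
      refine ⟨5, eq_of_entries _ _ ?_⟩; simp [P]; omega
  · have a0 : b 0 = 0 := by omega
    have a1 : b 1 = 0 := by omega
    have a7 : b 7 = 0 := by omega
    have a12 : b 12 = 0 := by omega
    have a13 : b 13 = 0 := by omega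
    rw [a0] at h1
    rw [a1] at h4
    rw [a7] at h2
    rw [a12] at h7
    rw [a13] at h9
    clear h0 h6
    have hb : b 3 = 1 ∨ b 3 = 0 := by omega
    rcases hb with hb | hb
    · refine ⟨6, eq_of_entries _ _ ?_⟩; simp [P]; omega
    · refine ⟨7, eq_of_entries _ _ ?_⟩; simp [P]; omega

/-- the multiplicities -/
def w : Fin 16 → ℕ := ![2, 2, 1, 2, 1, 2, 2, 1, 1, 2, 1, 1, 2, 1, 1, 3]

def cu : Fin 8 → ℕ := ![2, 0, 0, 0, 1, 1, 1, 0]
def cv : Fin 8 → ℕ := ![0, 1, 1, 2, 0, 0, 0, 1]

theorem cu_w : ∀ i, ∑ j, cu j * P j i = w i := by decide +kernel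
theorem cv_w : ∀ i, ∑ j, cv j * P j i = w i := by decide +kernel

theorem eq8 (b c : Fin 8 → ℕ) (h : b 0 = c 0 ∧ b 1 = c 1 ∧ b 2 = c 2 ∧ b 3 = c 3 ∧
    b 4 = c 4 ∧ b 5 = c 5 ∧ b 6 = c 6 ∧ b 7 = c 7) : b = c := by
  obtain ⟨h0, h1, h2, h3, h4, h5, h6, h7⟩ := h
  funext i
  fin_cases i <;> assumption

theorem solve (c : Fin 8 → ℕ) (h : ∀ i, ∑ j, c j * P j i = w i) : c = cu ∨ c = cv := by
  have h0 := h 0
  have h1 := h 1
  have h2 := h 2
  have h3 := h 3
  have h4 := h 4
  have h5 := h 5
  have h6 := h 6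
  have h7 := h 7
  have h8 := h 8
  have h9 := h 9
  have h10 := h 10
  have h11 := h 11
  have h12 := h 12
  have h13 := h 13
  have h14 := h 14
  have h15 := h 15
  simp [Fin.sum_univ_succ, P, w] at h0 h1 h2 h3 h4 h5 h6 h7 h8 h9 h10 h11 h12 h13 h14 h15
  have e0 : c 0 = 0 ∨ c 0 = 1 ∨ c 0 = 2 := by omega
  rcases e0 with e0 | e0 | e0
  · right
    apply eq8
    simp [cv]
    omega
  · omega
  · left
    apply eq8
    simp [cu]
    omega

/-! ### Lattice points -/

/-- the numbering of the edges as an equivalence -/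
noncomputable def eqv : Fin 16 ≃ G.edgeSet := Equiv.ofBijective ev ⟨ev_inj, ev_surj⟩

theorem eqv_symm_ev (i : Fin 16) : eqv.symm (ev i) = i := by
  have : ev i = eqv i := rfl
  rw [this, Equiv.symm_apply_apply]

theorem P_matching : ∀ j i k, P j i = 1 → P j k = 1 → i ≠ k → ∀ v, v ∈ ed i → v ∉ ed k := by
  decide +kernel

theorem P_01 : ∀ j i, P j i = 0 ∨ P j i = 1 := by
  decide +kernel

theorem P_mem (j : Fin 8) :
    (fun e : G.edgeSet => ((P j (eqv.symm e) : ℕ) : ℝ)) ∈ matchingPolytope G := by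
  apply subset_convexHull
  refine ⟨{e | P j (eqv.symm e) = 1}, ?_, ?_⟩
  · intro e he f hf hef v hve
    obtain ⟨i, rfl⟩ := ev_surj e
    obtain ⟨k, rfl⟩ := ev_surj f
    simp only [Set.mem_ofPred_eq, eqv_symm_ev] at he hf
    exact P_matching j i k he hf (fun h => hef (by rw [h])) v hve
  · funext e
    unfold rho
    rcases P_01 j (eqv.symm e) with h | h
    · rw [Set.indicator_of_notMem, h]
      · simp
      · simp [h]
    · rw [Set.indicator_of_mem, h]
      · simp
      · simp [h]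

/-- the eight lattice points -/
noncomputable def p (j : Fin 8) : latticePoints (matchingPolytope G) :=
  ⟨fun e => P j (eqv.symm e), P_mem j⟩

theorem p_ev (j : Fin 8) (i : Fin 16) : (p j).1 (ev i) = P j i := by
  unfold p
  simp only [eqv_symm_ev]

theorem P_inj : ∀ j k, (∀ i, P j i = P k i) → j = k := by
  decide +kernel

theorem p_inj : Function.Injective p := by
  intro j k h
  apply P_inj
  intro i
  rw [← p_ev, ← p_ev, h]

/-- `p` as an embedding -/
noncomputable def pe : Fin 8 ↪ latticePoints (matchingPolytope G) := ⟨p, p_inj⟩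

/-- the first monomial -/
noncomputable def mu : latticePoints (matchingPolytope G) →₀ ℕ :=
  Finsupp.embDomain pe (Finsupp.equivFunOnFinite.symm cu)

/-- the second monomial -/
noncomputable def mv : latticePoints (matchingPolytope G) →₀ ℕ :=
  Finsupp.embDomain pe (Finsupp.equivFunOnFinite.symm cv)

theorem sum_supp (m : latticePoints (matchingPolytope G) →₀ ℕ)
    (hm : ∀ a ∈ m.support, ∃ j, a = p j) (F : latticePoints (matchingPolytope G) → ℕ) :
    ∑ a ∈ m.support, m a * F a = ∑ j, m (p j) * F (p j) := by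
  classical
  have h1 : m.support ⊆ Finset.univ.map pe := by
    intro a ha
    obtain ⟨j, rfl⟩ := hm a ha
    exact Finset.mem_map_of_mem pe (Finset.mem_univ j)
  rw [Finset.sum_subset h1, Finset.sum_map]
  · rfl
  · intro a _ ha
    rw [Finsupp.notMem_support_iff.1 ha, zero_mul]

theorem fiber (m : latticePoints (matchingPolytope G) →₀ ℕ)
    (h1 : ∑ a ∈ m.support, m a = 5)
    (h2 : ∀ i, ∑ a ∈ m.support, m a * a.1 (ev i) = w i) : m = mu ∨ m = mv := by
  have hle : ∀ a ∈ m.support, m a * ∑ i, a.1 (ev i) ≤ m a * 5 := by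
    intro a _
    apply Nat.mul_le_mul_left
    have h := ineqs (fun i => a.1 (ev i)) (vertex_le_nat a)
    rw [sum16]
    omega
  have hsum : ∑ a ∈ m.support, m a * ∑ i, a.1 (ev i) = ∑ a ∈ m.support, m a * 5 := by
    rw [← Finset.sum_mul, h1]
    have : ∑ a ∈ m.support, m a * ∑ i, a.1 (ev i) =
        ∑ i, ∑ a ∈ m.support, m a * a.1 (ev i) := by
      rw [Finset.sum_comm]
      apply Finset.sum_congr rfl
      intro a _
      rw [Finset.mul_sum]
    rw [this]
    simp only [h2]
    decide +kernel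
  have heq := (Finset.sum_eq_sum_iff_of_le hle).1 hsum
  have hm : ∀ a ∈ m.support, ∃ j, a = p j := by
    intro a ha
    have h3 : ∑ i, a.1 (ev i) = 5 :=
      Nat.eq_of_mul_eq_mul_left (Nat.pos_of_ne_zero (Finsupp.mem_support_iff.1 ha)) (heq a ha)
    rw [sum16] at h3
    have h := ineqs (fun i => a.1 (ev i)) (vertex_le_nat a)
    obtain ⟨j, hj⟩ := classify (fun i => a.1 (ev i)) (by omega)
    refine ⟨j, ?_⟩
    apply Subtype.ext
    funext e
    obtain ⟨i, rfl⟩ := ev_surj e
    rw [p_ev]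
    exact congrFun hj i
  have hc : ∀ i, ∑ j, m (p j) * P j i = w i := by
    intro i
    rw [← h2 i, sum_supp m hm (fun a => a.1 (ev i))]
    simp only [p_ev]
  have hext : ∀ c : Fin 8 → ℕ, (fun j => m (p j)) = c →
      m = Finsupp.embDomain pe (Finsupp.equivFunOnFinite.symm c) := by
    intro c hcc
    ext a
    by_cases ha : a ∈ Set.range pe
    · obtain ⟨j, rfl⟩ := ha
      rw [Finsupp.embDomain_apply_self]
      exact congrFun hcc j
    · rw [Finsupp.embDomain_of_notMem_range _ _ _ ha]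
      by_contra hne
      obtain ⟨j, hj⟩ := hm a (Finsupp.mem_support_iff.2 hne)
      exact ha ⟨j, hj.symm⟩
  rcases solve (fun j => m (p j)) hc with h | h
  · left
    exact hext cu h
  · right
    exact hext cv h

/-! ### The monomial map -/

/-- exponent vector of `t ^ a * s` -/
noncomputable def phi {E : Type*} [Fintype E] (Q : Set (E → ℝ)) (a : latticePoints Q) :
    Option E →₀ ℕ :=
  Finsupp.equivFunOnFinite.symm (fun o => o.elim 1 a.1)

theorem toricMap_eq (K : Type*) [Field K] {E : Type*} [Fintype E] (Q : Set (E → ℝ)) :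
    toricMap K Q = Q268.TM.mmap K (phi Q) := by
  unfold toricMap Q268.TM.mmap
  congr 1
  funext a
  rw [monomial_eq, Finsupp.prod_fintype _ _ (by simp), Fintype.prod_option]
  simp [phi, mul_comm]

theorem img_apply {σ τ : Type*} (φ : σ → τ →₀ ℕ) (m : σ →₀ ℕ) (t : τ) :
    Q268.TM.img φ m t = ∑ a ∈ m.support, m a * φ a t := by
  unfold Q268.TM.img Finsupp.sum
  rw [Finsupp.finsetSum_apply]
  rfl

theorem mem_range (c : Fin 8 → ℕ) (a : latticePoints (matchingPolytope G))
    (ha : a ∈ (Finsupp.embDomain pe (Finsupp.equivFunOnFinite.symm c)).support) :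
    ∃ j, a = p j := by
  by_contra h
  push Not at h
  rw [Finsupp.mem_support_iff] at ha
  apply ha
  apply Finsupp.embDomain_of_notMem_range
  rintro ⟨j, hj⟩
  exact h j hj.symm

theorem sum_emb (c : Fin 8 → ℕ) (F : latticePoints (matchingPolytope G) → ℕ) :
    ∑ a ∈ (Finsupp.embDomain pe (Finsupp.equivFunOnFinite.symm c)).support,
      (Finsupp.embDomain pe (Finsupp.equivFunOnFinite.symm c)) a * F a = ∑ j, c j * F (p j) := by
  rw [sum_supp _ (mem_range c)]
  apply Finset.sum_congr rfl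
  intro j _
  have : p j = pe j := rfl
  rw [this, Finsupp.embDomain_apply_self]
  rfl

theorem img_none (c : Fin 8 → ℕ) :
    Q268.TM.img (phi (matchingPolytope G))
      (Finsupp.embDomain pe (Finsupp.equivFunOnFinite.symm c)) none = ∑ j, c j := by
  rw [img_apply, sum_emb c (fun a => phi (matchingPolytope G) a none)]
  simp [phi]

theorem img_some (c : Fin 8 → ℕ) (i : Fin 16) :
    Q268.TM.img (phi (matchingPolytope G))
      (Finsupp.embDomain pe (Finsupp.equivFunOnFinite.symm c)) (some (ev i)) =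
      ∑ j, c j * P j i := by
  rw [img_apply, sum_emb c (fun a => phi (matchingPolytope G) a (some (ev i)))]
  simp [phi, p_ev]

/-- **Counterexample.** There is a graph `G` (on ten vertices) such that over every field `K` every
generating set of the toric ideal of the matching polytope of `G` contains an element of degree at
least `5`. -/
theorem result : ∃ (G : SimpleGraph (Fin 10)) (_ : DecidableRel G.Adj),
    ∀ (K : Type u) [Field K] (S : Set (MvPolynomial (latticePoints (matchingPolytope G)) K)),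
      Ideal.span S = toricIdeal K (matchingPolytope G) → ∃ f ∈ S, 5 ≤ f.totalDegree := by
  refine ⟨G, inferInstance, ?_⟩
  intro K _ S hS
  unfold toricIdeal at hS
  rw [toricMap_eq] at hS
  have hu : (5 : ℕ) = mu.sum (fun _ k => k) := by
    have := sum_emb cu (fun _ => 1)
    simp only [mul_one] at this
    unfold mu Finsupp.sum
    rw [this]
    decide +kernel
  rw [hu]
  refine Q268.TM.exists_large_degree (phi (matchingPolytope G)) mu mv ?_ ?_ ?_ ?_ S hS
  · intro h
    have := DFunLike.congr_fun h (pe 0)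
    unfold mu mv at this
    rw [Finsupp.embDomain_apply_self, Finsupp.embDomain_apply_self] at this
    revert this
    simp [cu, cv]
  · ext t
    rcases t with _ | e
    · unfold mu mv
      rw [img_none, img_none]
      decide +kernel
    · obtain ⟨i, rfl⟩ := ev_surj e
      unfold mu mv
      rw [img_some, img_some, cu_w, cv_w]
  · intro m hm
    apply fiber
    · have := DFunLike.congr_fun hm none
      unfold mu at this
      rw [img_none, img_apply] at this
      simp only [phi, Finsupp.equivFunOnFinite_symm_apply_apply, Option.elim_none, mul_one] at this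
      rw [this]
      decide +kernel
    · intro i
      have := DFunLike.congr_fun hm (some (ev i))
      unfold mu at this
      rw [img_some, img_apply, cu_w] at this
      exact this
  · intro a
    by_cases ha : a ∈ Set.range pe
    · obtain ⟨j, rfl⟩ := ha
      unfold mu mv
      rw [Finsupp.embDomain_apply_self, Finsupp.embDomain_apply_self]
      have : ∀ j, cu j = 0 ∨ cv j = 0 := by decide +kernel
      exact this j
    · left
      unfold mu
      exact Finsupp.embDomain_of_notMem_range _ _ _ ha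

end Pool.Agent.Results.MP_2a9801_co.DegreeFive
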